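import Pool.Agent.Helper46.HS.Dist
import Pool.Agent.Helper46.HR.NLLN

/-!
# HS block B: conditional laws, and the law of large numbers
-/

set_option autoImplicit false

namespace Pool.Agent.Helper46.HS

open Finset MeasureTheory ProbabilityTheory Filter Topology
open Pool.Agent.Helper59.RE (e norm_e e_add e_sub conj_e continuous_e e_zero norm_e_sub)
open Pool.Agent.Helper46.HR

variable {Ω : Type*} [MeasurableSpace Ω] {E : Type*} [MeasurableSpace E] {μ : Measure Ω} {p q : ℝ} {T : Ω ≃ᵐ Ω} {ξ : Ω → E}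
    {φ φ' : E → ℝ → ℝ} {X : Ω → ℝ} {C r K ε : ℝ}

theorem clp_mem (hpq : p ≤ q) (x : ℝ) : clp p q x ∈ Set.Icc p q :=
  ⟨le_max_left _ _, max_le hpq (min_le_left _ _)⟩

theorem clp_eq {x : ℝ} (h : x ∈ Set.Icc p q) : clp p q x = x := by
  unfold clp
  rw [min_eq_right h.2, max_eq_right h.1]

theorem continuous_clp (p q : ℝ) : Continuous (clp p q) := by
  unfold clp
  fun_prop

theorem symm_iter (T : Ω ≃ᵐ Ω) (j : ℕ) (ω : Ω) : T.symm^[j] (T^[j] ω) = ω :=
  Function.LeftInverse.iterate T.symm_apply_apply j ω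

theorem pst_shift (T : Ω ≃ᵐ Ω) (ξ : Ω → E) {j k : ℕ} (h : j ≤ k) (ω : Ω) (i : ℕ) :
    pst T ξ (T^[j] ω) i = pst T ξ (T^[k] ω) (i + (k - j)) := by
  obtain ⟨l, rfl⟩ := Nat.exists_eq_add_of_le h
  unfold pst
  congr 1
  have h1 : i + (j + l - j) + 1 = (i + 1) + l := by omega
  rw [h1, Function.iterate_add_apply T.symm (i + 1) l, add_comm j l, Function.iterate_add_apply (⇑T) l j, symm_iter]

theorem pst_succ (T : Ω ≃ᵐ Ω) (ξ : Ω → E) (ω : Ω) (i : ℕ) : pst T ξ (T ω) (i + 1) = pst T ξ ω i := by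
  have h1 := pst_shift T ξ (Nat.zero_le 1) ω i
  exact h1.symm

theorem pst_zero (T : Ω ≃ᵐ Ω) (ξ : Ω → E) (ω : Ω) : pst T ξ (T ω) 0 = ξ ω := by
  unfold pst
  show ξ (T.symm (T ω)) = ξ ω
  rw [T.symm_apply_apply]

theorem pst_meas (T : Ω ≃ᵐ Ω) (ξ : Ω → E) {j k : ℕ} (h : j ≤ k) :
    Measurable[GG T ξ k] (fun ω => pst T ξ (T^[j] ω)) := by
  have h1 : Measurable[GG T ξ k] (fun ω => pst T ξ (T^[k] ω)) := comap_measurable _
  have h2 : (fun ω => pst T ξ (T^[j] ω)) = (fun (s : ℕ → E) (i : ℕ) => s (i + (k - j))) ∘ (fun ω => pst T ξ (T^[k] ω)) := by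
    funext ω i
    exact pst_shift T ξ h ω i
  rw [h2]
  exact (measurable_pi_iff.2 fun i => measurable_pi_apply _).comp h1

theorem GG_mono (T : Ω ≃ᵐ Ω) (ξ : Ω → E) {j k : ℕ} (h : j ≤ k) : GG T ξ j ≤ GG T ξ k :=
  (pst_meas T ξ h).comap_le

theorem Prc.mpst (hS : Prc μ p q T ξ φ X) : Measurable (pst T ξ) := by
  rw [measurable_pi_iff]
  intro j
  exact hS.hξ.comp (T.symm.measurable.iterate (j + 1))

theorem Prc.GG_le (hS : Prc μ p q T ξ φ X) (k : ℕ) : GG T ξ k ≤ (inferInstance : MeasurableSpace Ω) :=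
  (hS.mpst.comp (T.measurable.iterate k)).comap_le

instance kap_markov [IsProbabilityMeasure μ] : IsMarkovKernel (kap μ T ξ X) := by
  unfold kap
  infer_instance

/-- compositions: the first map -/
theorem pcm_shift (φ : E → ℝ → ℝ) (π : ℕ → E) (m : ℕ) (z : ℝ) :
    pcm φ π (m + 1) z = pcm φ (fun j => π (j + 1)) m (φ (π 0) z) := by
  induction m with
  | zero => rfl
  | succ m ih =>
    have h1 : pcm φ π (m + 1 + 1) z = φ (π (m + 1)) (pcm φ π (m + 1) z) := rfl
    rw [h1, ih]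
    rfl

theorem pcm_T (T : Ω ≃ᵐ Ω) (ξ : Ω → E) (φ : E → ℝ → ℝ) (m : ℕ) (ω : Ω) (z : ℝ) :
    pcm φ (pst T ξ (T ω)) (m + 1) z = pcm φ (pst T ξ ω) m (φ (ξ ω) z) := by
  rw [pcm_shift, pst_zero]
  congr 1
  funext j
  exact pst_succ T ξ ω j

theorem Prc.X_eq (hS : Prc μ p q T ξ φ X) (k : ℕ) (ω : Ω) : X ω = pcm φ (pst T ξ (T^[k] ω)) k (X (T^[k] ω)) := by
  induction k with
  | zero => rfl
  | succ k ih =>
    rw [Function.iterate_succ_apply', pcm_T, ← hS.hX]
    exact ih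

theorem pcm_measurable (hφ : Measurable (Function.uncurry φ)) (m : ℕ) : Measurable fun z : (ℕ → E) × ℝ => pcm φ z.1 m z.2 := by
  induction m with
  | zero => exact measurable_snd
  | succ m ih => exact hφ.comp (((measurable_pi_apply m).comp measurable_fst).prodMk ih)

theorem len_measurable (hφ : Measurable (Function.uncurry φ)) (p q : ℝ) (m : ℕ) : Measurable fun π : ℕ → E => len p q φ π m := by
  have h1 : Measurable fun π : ℕ → E => pcm φ π m q := (pcm_measurable hφ m).comp (measurable_id.prodMk measurable_const)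
  have h2 : Measurable fun π : ℕ → E => pcm φ π m p := (pcm_measurable hφ m).comp (measurable_id.prodMk measurable_const)
  exact (h1.sub h2).abs

theorem nrm_measurable (hφ : Measurable (Function.uncurry φ)) (p q : ℝ) (m : ℕ) :
    Measurable fun z : (ℕ → E) × ℝ => nrm p q φ z.1 m z.2 := by
  have h1 : Measurable fun z : (ℕ → E) × ℝ => pcm φ z.1 m (clp p q z.2) :=
    (pcm_measurable hφ m).comp (measurable_fst.prodMk ((continuous_clp p q).measurable.comp measurable_snd))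
  have h2 : Measurable fun z : (ℕ → E) × ℝ => pcm φ z.1 m p := (pcm_measurable hφ m).comp (measurable_fst.prodMk measurable_const)
  exact (h1.sub h2).div ((len_measurable hφ p q m).comp measurable_fst)

theorem nrm_abs (h : Con p q φ φ' C r K ε) (π : ℕ → E) (m : ℕ) (z : ℝ) : |nrm p q φ π m z| ≤ 1 := by
  unfold nrm
  rw [abs_div, abs_of_pos (h.len_pos π m), div_le_one (h.len_pos π m)]
  exact h.pcm_close π m (clp_mem h.hpq.le z) ⟨le_rfl, h.hpq.le⟩

theorem psi_norm [IsProbabilityMeasure μ] (m : ℕ) (π : ℕ → E) (t : ℝ) : ‖psi μ p q T ξ φ X m π t‖ ≤ 1 := by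
  unfold psi
  refine (norm_integral_le_of_norm_le_const (C := 1) (Eventually.of_forall fun x => (norm_e _).le)).trans ?_
  simp

theorem nrm_measurable' (hφ : Measurable (Function.uncurry φ)) (p q : ℝ) (m : ℕ) (π : ℕ → E) :
    Measurable fun z : ℝ => nrm p q φ π m z := (nrm_measurable hφ p q m).comp (measurable_const.prodMk measurable_id)

theorem psi_integrable (hφ : Measurable (Function.uncurry φ)) [IsProbabilityMeasure μ] (m : ℕ) (π : ℕ → E) (t : ℝ) :
    Integrable (fun z => e (t * nrm p q φ π m z)) (kap μ T ξ X π) := by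
  refine (integrable_const (1 : ℝ)).mono' ?_ (Eventually.of_forall fun x => (norm_e _).le)
  exact (continuous_e.measurable.comp ((nrm_measurable' hφ p q m π).const_mul t)).aestronglyMeasurable

theorem psi_lip (h : Con p q φ φ' C r K ε) (hφ : Measurable (Function.uncurry φ)) [IsProbabilityMeasure μ] (m : ℕ) (π : ℕ → E)
    (t t' : ℝ) : ‖psi μ p q T ξ φ X m π t - psi μ p q T ξ φ X m π t'‖ ≤ 2 * Real.pi * 1 * |t - t'| := by
  unfold psi
  rw [← integral_sub (psi_integrable hφ m π t) (psi_integrable hφ m π t')]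
  refine (norm_integral_le_of_norm_le_const (C := 2 * Real.pi * 1 * |t - t'|) (Eventually.of_forall fun x => ?_)).trans ?_
  · refine (norm_e_sub _ _).trans ?_
    have h1 : t * nrm p q φ π m x - t' * nrm p q φ π m x = (t - t') * nrm p q φ π m x := by ring
    rw [h1, abs_mul]
    have h2 := nrm_abs h π m x
    have hpi := Real.pi_pos
    calc 2 * Real.pi * (|t - t'| * |nrm p q φ π m x|) ≤ 2 * Real.pi * (|t - t'| * 1) := by gcongr
      _ = _ := by ring
  · simp

theorem psi_neg [IsProbabilityMeasure μ] (m : ℕ) (π : ℕ → E) (t : ℝ) :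
    ‖psi μ p q T ξ φ X m π (-t)‖ = ‖psi μ p q T ξ φ X m π t‖ := by
  have h1 : psi μ p q T ξ φ X m π (-t) = (starRingEnd ℂ) (psi μ p q T ξ φ X m π t) := by
    unfold psi
    rw [← integral_conj]
    congr 1
    funext x
    rw [conj_e, neg_mul]
  rw [h1, Complex.norm_conj]

theorem psi_meas (hφ : Measurable (Function.uncurry φ)) [IsProbabilityMeasure μ] (m : ℕ) :
    Measurable fun z : (ℕ → E) × ℝ => psi μ p q T ξ φ X m z.1 z.2 := by
  have h1 : StronglyMeasurable (fun z : ((ℕ → E) × ℝ) × ℝ => e (z.1.2 * nrm p q φ z.1.1 m z.2)) := by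
    apply Measurable.stronglyMeasurable
    exact continuous_e.measurable.comp (measurable_fst.snd.mul ((nrm_measurable hφ p q m).comp (measurable_fst.fst.prodMk measurable_snd)))
  have h2 := h1.integral_kernel_prod_right' (κ := (kap μ T ξ X).comap Prod.fst measurable_fst)
  exact h2.measurable

/-- the law of (past, X) at time `k` -/
theorem base (hS : Prc μ p q T ξ φ X) [IsProbabilityMeasure μ] (k : ℕ) (g : (ℕ → E) → ℝ → ℂ)
    (hg : Measurable (Function.uncurry g)) (M : ℝ) (hM : ∀ s x, ‖g s x‖ ≤ M) :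
    ∫ ω, g (pst T ξ (T^[k] ω)) (X (T^[k] ω)) ∂μ =
      ∫ ω, (∫ x, g (pst T ξ (T^[k] ω)) x ∂(kap μ T ξ X (pst T ξ (T^[k] ω)))) ∂μ := by
  have hPm := hS.mpst
  have hXm := hS.hXm
  have hk : MeasurePreserving (T^[k]) μ μ := hS.hT.iterate k
  have hinner : StronglyMeasurable fun s : ℕ → E => ∫ x, g s x ∂(kap μ T ξ X s) := by
    have h1 : StronglyMeasurable (Function.uncurry g) := hg.stronglyMeasurable
    exact h1.integral_kernel_prod_right (κ := kap μ T ξ X)
  have hL : ∫ ω, g (pst T ξ (T^[k] ω)) (X (T^[k] ω)) ∂μ = ∫ ω, g (pst T ξ ω) (X ω) ∂μ := by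
    have h1 : AEStronglyMeasurable (fun ω => g (pst T ξ ω) (X ω)) (μ.map (T^[k])) :=
      (hg.comp (hPm.prodMk hXm)).aestronglyMeasurable
    have h2 := integral_map hk.measurable.aemeasurable h1
    rw [hk.map_eq] at h2
    exact h2.symm
  have hR : ∫ ω, (∫ x, g (pst T ξ (T^[k] ω)) x ∂(kap μ T ξ X (pst T ξ (T^[k] ω)))) ∂μ =
      ∫ ω, (∫ x, g (pst T ξ ω) x ∂(kap μ T ξ X (pst T ξ ω))) ∂μ := by
    have h1 : AEStronglyMeasurable (fun ω => ∫ x, g (pst T ξ ω) x ∂(kap μ T ξ X (pst T ξ ω))) (μ.map (T^[k])) :=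
      (hinner.comp_measurable hPm).aestronglyMeasurable
    have h2 := integral_map hk.measurable.aemeasurable h1
    rw [hk.map_eq] at h2
    exact h2.symm
  rw [hL, hR]
  have h1 := compProd_map_condDistrib (mβ := MeasurableSpace.pi) (X := pst T ξ) (Y := X) (μ := μ) hXm.aemeasurable
  have h2 : ∫ z, Function.uncurry g z ∂(μ.map fun ω => (pst T ξ ω, X ω)) = ∫ ω, g (pst T ξ ω) (X ω) ∂μ :=
    integral_map (hPm.prodMk hXm).aemeasurable hg.aestronglyMeasurable
  have hp : IsProbabilityMeasure (μ.map (pst T ξ)) := Measure.isProbabilityMeasure_map hPm.aemeasurable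
  have h3 : Integrable (Function.uncurry g) ((μ.map (pst T ξ)) ⊗ₘ (kap μ T ξ X)) :=
    (integrable_const M).mono' hg.aestronglyMeasurable (Eventually.of_forall fun z => hM _ _)
  rw [← h2, ← h1]
  change ∫ z, Function.uncurry g z ∂((μ.map (pst T ξ)) ⊗ₘ (kap μ T ξ X)) = _
  rw [Measure.integral_compProd h3]
  exact integral_map hPm.aemeasurable hinner.aestronglyMeasurable

/-- the law of the relative position of `X ∘ T^k` given `GG k` -/
theorem base_G (hS : Prc μ p q T ξ φ X) [IsProbabilityMeasure μ] (m k : ℕ) (W : Ω → ℂ) (hW : Measurable[GG T ξ k] W)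
    (M : ℝ) (hM : ∀ ω, ‖W ω‖ ≤ M) (τ : Ω → ℝ) (hτ : Measurable[GG T ξ k] τ) :
    ∫ ω, W ω * e (τ ω * nrm p q φ (pst T ξ (T^[k] ω)) m (X (T^[k] ω))) ∂μ =
      ∫ ω, W ω * psi μ p q T ξ φ X m (pst T ξ (T^[k] ω)) (τ ω) ∂μ := by
  obtain ⟨W₀, hW₀, hW₁⟩ := hW.exists_eq_measurable_comp
  obtain ⟨τ₀, hτ₀, hτ₁⟩ := hτ.exists_eq_measurable_comp
  classical
  set W₂ : (ℕ → E) → ℂ := fun s => if ‖W₀ s‖ ≤ M then W₀ s else 0 with hW₂
  have hW₂m : Measurable W₂ := Measurable.ite (measurableSet_le hW₀.norm measurable_const) hW₀ measurable_const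
  have hM0 : 0 ≤ M := by
    obtain ⟨ω⟩ : Nonempty Ω := nonempty_of_isProbabilityMeasure μ
    exact (norm_nonneg _).trans (hM ω)
  have hW₂b : ∀ s, ‖W₂ s‖ ≤ M := by
    intro s
    rw [hW₂]
    simp only
    split_ifs with h
    · exact h
    · rw [norm_zero]
      exact hM0
  have hWe : ∀ ω, W ω = W₂ (pst T ξ (T^[k] ω)) := by
    intro ω
    have h1 : W ω = W₀ (pst T ξ (T^[k] ω)) := congrFun hW₁ ω
    have h2 := hM ω
    rw [h1] at h2
    rw [h1, hW₂]
    simp only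
    rw [if_pos h2]
  have hτe : ∀ ω, τ ω = τ₀ (pst T ξ (T^[k] ω)) := fun ω => congrFun hτ₁ ω
  have h1 := base hS k (fun s x => W₂ s * e (τ₀ s * nrm p q φ s m x)) (by
    apply Measurable.mul
    · exact hW₂m.comp measurable_fst
    · exact continuous_e.measurable.comp ((hτ₀.comp measurable_fst).mul (nrm_measurable hS.hφ p q m))) M (by
    intro s x
    rw [norm_mul, norm_e, mul_one]
    exact hW₂b s)
  have h2 : ∀ ω, W ω * e (τ ω * nrm p q φ (pst T ξ (T^[k] ω)) m (X (T^[k] ω))) = W₂ (pst T ξ (T^[k] ω)) *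
      e (τ₀ (pst T ξ (T^[k] ω)) * nrm p q φ (pst T ξ (T^[k] ω)) m (X (T^[k] ω))) := by
    intro ω
    rw [hWe, hτe]
  simp only [h2]
  rw [h1]
  refine integral_congr_ae (Eventually.of_forall fun ω => ?_)
  simp only
  rw [integral_const_mul, hWe, hτe]
  rfl

/-- the scale at time `k` -/
noncomputable def rho (p q : ℝ) (T : Ω ≃ᵐ Ω) (ξ : Ω → E) (φ : E → ℝ → ℝ) (k : ℕ) (ω : Ω) : ℝ := len p q φ (pst T ξ (T^[k] ω)) k

/-- the exact characteristic functions -/
noncomputable def Psi (μ : Measure Ω) [IsFiniteMeasure μ] (p q : ℝ) (T : Ω ≃ᵐ Ω) (ξ : Ω → E) (φ : E → ℝ → ℝ)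
    (X : Ω → ℝ) (k : ℕ) (ω : Ω) (t : ℝ) : ℂ := psi μ p q T ξ φ X k (pst T ξ (T^[k] ω)) t

theorem nest_of_sys (h : Con p q φ φ' C r K ε) (hS : Prc μ p q T ξ φ X) [IsProbabilityMeasure μ] :
    Nest μ 1 (GG T ξ) X (fun k ω => pcm φ (pst T ξ (T^[k] ω)) k p) (rho p q T ξ φ)
      (fun k ω => nrm p q φ (pst T ξ (T^[k] ω)) k (X (T^[k] ω))) (Psi μ p q T ξ φ X) where
  hA := zero_le_one
  mono := fun j k hjk => GG_mono T ξ hjk
  le := hS.GG_le
  hXl := fun k => by
    have h1 : Measurable fun π : ℕ → E => pcm φ π k p := (pcm_measurable hS.hφ k).comp (measurable_id.prodMk measurable_const)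
    exact h1.comp (pst_meas T ξ le_rfl)
  hρm := fun k => (len_measurable hS.hφ p q k).comp (pst_meas T ξ le_rfl)
  hρ0 := fun k ω => h.len_pos _ k
  hρa := fun ω => antitone_nat_of_succ_le fun k => by
    show len p q φ (pst T ξ (T^[k + 1] ω)) (k + 1) ≤ len p q φ (pst T ξ (T^[k] ω)) k
    unfold len
    rw [Function.iterate_succ_apply', pcm_T, pcm_T]
    exact h.pcm_close _ k (h.hmaps _ _ ⟨h.hpq.le, le_rfl⟩) (h.hmaps _ _ ⟨le_rfl, h.hpq.le⟩)
  hρ1 := fun η hη => by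
    obtain ⟨ω₀⟩ : Nonempty Ω := nonempty_of_isProbabilityMeasure μ
    have hC := h.hC (ξ ω₀)
    obtain ⟨k, hk⟩ := exists_pow_lt_of_lt_one (div_pos hη hC) h.hr1
    refine ⟨k, fun ω => (h.hcon _ k).trans ?_⟩
    rw [lt_div_iff₀ hC] at hk
    linarith
  hZ := fun k => (nrm_measurable hS.hφ p q k).comp ((hS.mpst.comp (T.measurable.iterate k)).prodMk (hS.hXm.comp (T.measurable.iterate k)))
  eq := fun k ω => by
    have hl := h.len_pos (pst T ξ (T^[k] ω)) k
    show X ω = pcm φ (pst T ξ (T^[k] ω)) k p + len p q φ (pst T ξ (T^[k] ω)) k * nrm p q φ (pst T ξ (T^[k] ω)) k (X (T^[k] ω))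
    unfold nrm
    rw [mul_div_cancel₀ _ hl.ne', clp_eq (hS.hXI _), ← hS.X_eq k ω]
    ring
  hZA := fun k ω => nrm_abs h _ _ _
  hΨm := fun k t ht => (psi_meas hS.hφ k).comp ((pst_meas T ξ le_rfl).prodMk ht)
  hΨ1 := fun k ω t => psi_norm _ _ _
  hΨL := fun k ω t t' => psi_lip h hS.hφ _ _ _ _
  hΨs := fun k ω t => psi_neg _ _ _
  key := fun k g t hg ht h2 => base_G hS k k g hg 2 h2 t ht

end Pool.Agent.Helper46.HS
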