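import Mathlib
import Pool.Agent.Helper59.RE.Exp

/-!
# Project HS (MP_9056e9_nt, theorem H3): stationary conformal contractions.  Definitions

`T` is an ergodic invertible transformation, `ξ ω` is a label, `φ x` is a contraction of the interval
`[p, q]` for every label `x`, and `X ω = φ (ξ ω) (X (T ω))`.  The past of `ω` is the sequence
`ξ(T^(-1) ω), ξ(T^(-2) ω), ...`.
-/

set_option autoImplicit false

namespace Pool.Agent.Helper46.HS

open Finset MeasureTheory ProbabilityTheory Filter Topology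
open Pool.Agent.Helper59.RE (e)

/-- the compositions `φ (π (m-1)) ∘ ... ∘ φ (π 0)` -/
def pcm {E : Type*} (φ : E → ℝ → ℝ) (π : ℕ → E) : ℕ → ℝ → ℝ
  | 0, z => z
  | m + 1, z => φ (π m) (pcm φ π m z)

/-- the contractions of `[p, q]`: the compositions of `k` maps have images of length at most `C r^k`,
the derivatives have no zeros, and their logarithms are Hölder continuous -/
structure Con {E : Type*} (p q : ℝ) (φ φ' : E → ℝ → ℝ) (C r K ε : ℝ) : Prop where
  hpq : p < q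
  hmaps : ∀ x, ∀ z ∈ Set.Icc p q, φ x z ∈ Set.Icc p q
  hd : ∀ x, ∀ z ∈ Set.Icc p q, HasDerivWithinAt (φ x) (φ' x z) (Set.Icc p q) z
  hne : ∀ x, ∀ z ∈ Set.Icc p q, φ' x z ≠ 0
  hdist : ∀ x, ∀ z ∈ Set.Icc p q, ∀ w ∈ Set.Icc p q, |(Real.log |φ' x z| - Real.log |φ' x w|)| ≤ K * |z - w| ^ ε
  hcon : ∀ (π : ℕ → E) (k : ℕ), |pcm φ π k q - pcm φ π k p| ≤ C * r ^ k
  hK : 0 ≤ K
  hr0 : 0 < r
  hr1 : r < 1
  hε : 0 < ε

variable {Ω : Type*} [MeasurableSpace Ω] {E : Type*} [MeasurableSpace E]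

/-- the past of the process: `pst ω j = ξ (T^(-(j+1)) ω)` -/
def pst (T : Ω ≃ᵐ Ω) (ξ : Ω → E) (ω : Ω) : ℕ → E := fun j => ξ (T.symm^[j + 1] ω)

/-- the hypotheses on the process -/
structure Prc (μ : Measure Ω) (p q : ℝ) (T : Ω ≃ᵐ Ω) (ξ : Ω → E) (φ : E → ℝ → ℝ) (X : Ω → ℝ) : Prop where
  hT : MeasurePreserving T μ μ
  hξ : Measurable ξ
  hφ : Measurable (Function.uncurry φ)
  hXm : Measurable X
  hXI : ∀ ω, X ω ∈ Set.Icc p q
  hX : ∀ ω, X ω = φ (ξ ω) (X (T ω))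

/-- the law of `X` given the past -/
noncomputable def kap (μ : Measure Ω) [IsFiniteMeasure μ] (T : Ω ≃ᵐ Ω) (ξ : Ω → E) (X : Ω → ℝ) :
    Kernel (ℕ → E) ℝ := condDistrib X (pst T ξ) μ

/-- truncation to `[p, q]` -/
noncomputable def clp (p q x : ℝ) : ℝ := max p (min q x)

/-- the length of the image of `[p, q]` under `pcm φ π m` -/
noncomputable def len (p q : ℝ) (φ : E → ℝ → ℝ) (π : ℕ → E) (m : ℕ) : ℝ := |pcm φ π m q - pcm φ π m p|

/-- the chart: the relative position of the image of `z` in the image of `[p, q]` under `pcm φ π m` -/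
noncomputable def nrm (p q : ℝ) (φ : E → ℝ → ℝ) (π : ℕ → E) (m : ℕ) (z : ℝ) : ℝ :=
  (pcm φ π m (clp p q z) - pcm φ π m p) / len p q φ π m

/-- the characteristic function of the relative position of `X`, given the past -/
noncomputable def psi (μ : Measure Ω) [IsFiniteMeasure μ] (p q : ℝ) (T : Ω ≃ᵐ Ω) (ξ : Ω → E) (φ : E → ℝ → ℝ)
    (X : Ω → ℝ) (m : ℕ) (π : ℕ → E) (t : ℝ) : ℂ := ∫ z, e (t * nrm p q φ π m z) ∂(kap μ T ξ X π)

/-- the past at time `k` as a sigma algebra -/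
abbrev GG (T : Ω ≃ᵐ Ω) (ξ : Ω → E) (k : ℕ) : MeasurableSpace Ω :=
  MeasurableSpace.comap (fun ω => pst T ξ (T^[k] ω)) inferInstance

end Pool.Agent.Helper46.HS
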