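import Pool.Agent.Helper46.HS.Defs

/-!
# HS block A: distortion
-/

set_option autoImplicit false

namespace Pool.Agent.Helper46.HS

open Finset MeasureTheory ProbabilityTheory Filter Topology

variable {E : Type*} {p q : ℝ} {φ φ' : E → ℝ → ℝ} {C r K ε : ℝ}

/-- Cauchy's mean value theorem on both intervals -/
theorem Con.mvt (h : Con p q φ φ' C r K ε) (x : E) {u v : ℝ} (hu : u ∈ Set.Icc p q) (hv : v ∈ Set.Icc p q) (huv : u ≠ v) :
    ∃ c ∈ Set.uIcc u v, c ∈ Set.Icc p q ∧ |φ x u - φ x v| = |φ' x c| * |u - v| := by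
  wlog hlt : u < v generalizing u v
  · obtain ⟨c, hc, hc', heq⟩ := this hv hu huv.symm (lt_of_le_of_ne (not_lt.1 hlt) huv.symm)
    refine ⟨c, ?_, hc', ?_⟩
    · rw [Set.uIcc_comm]
      exact hc
    · rw [abs_sub_comm (φ x u), abs_sub_comm u]
      exact heq
  have hsub : Set.Icc u v ⊆ Set.Icc p q := Set.Icc_subset_Icc hu.1 hv.2
  have hcont : ContinuousOn (φ x) (Set.Icc u v) := fun z hz => ((h.hd x z (hsub hz)).continuousWithinAt).mono hsub
  have hder : ∀ z ∈ Set.Ioo u v, HasDerivAt (φ x) (φ' x z) z := by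
    intro z hz
    refine (h.hd x z (hsub (Set.Ioo_subset_Icc_self hz))).hasDerivAt ?_
    exact Icc_mem_nhds (lt_of_le_of_lt hu.1 hz.1) (lt_of_lt_of_le hz.2 hv.2)
  obtain ⟨c, hc, hc'⟩ := exists_hasDerivAt_eq_slope (φ x) (φ' x) hlt hcont hder
  have hcI : c ∈ Set.Icc u v := Set.Ioo_subset_Icc_self hc
  refine ⟨c, ?_, hsub hcI, ?_⟩
  · rw [Set.uIcc_of_le hlt.le]
    exact hcI
  · have hvu : 0 < v - u := by linarith
    rw [eq_div_iff hvu.ne'] at hc'
    rw [abs_sub_comm (φ x u), ← hc', abs_mul, abs_sub_comm u v]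

theorem Con.inj (h : Con p q φ φ' C r K ε) (x : E) {u v : ℝ} (hu : u ∈ Set.Icc p q) (hv : v ∈ Set.Icc p q) (huv : u ≠ v) :
    φ x u ≠ φ x v := by
  obtain ⟨c, _, hc, heq⟩ := h.mvt x hu hv huv
  intro h1
  rw [h1, sub_self, abs_zero] at heq
  have h2 : 0 < |φ' x c| * |u - v| := mul_pos (abs_pos.2 (h.hne x c hc)) (abs_pos.2 (sub_ne_zero.2 huv))
  linarith

theorem Con.pcm_mem (h : Con p q φ φ' C r K ε) (π : ℕ → E) (m : ℕ) {z : ℝ} (hz : z ∈ Set.Icc p q) :
    pcm φ π m z ∈ Set.Icc p q := by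
  induction m with
  | zero => exact hz
  | succ m ih => exact h.hmaps _ _ ih

theorem Con.pcm_inj (h : Con p q φ φ' C r K ε) (π : ℕ → E) (m : ℕ) {u v : ℝ} (hu : u ∈ Set.Icc p q) (hv : v ∈ Set.Icc p q)
    (huv : u ≠ v) : pcm φ π m u ≠ pcm φ π m v := by
  induction m with
  | zero => exact huv
  | succ m ih => exact h.inj _ (h.pcm_mem π m hu) (h.pcm_mem π m hv) ih

/-- continuity of the compositions -/
theorem Con.pcm_cont (h : Con p q φ φ' C r K ε) (π : ℕ → E) (m : ℕ) : ContinuousOn (pcm φ π m) (Set.Icc p q) := by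
  induction m with
  | zero => exact continuousOn_id
  | succ m ih =>
    have h1 : ContinuousOn (φ (π m)) (Set.Icc p q) := fun z hz => (h.hd _ z hz).continuousWithinAt
    exact h1.comp ih fun z hz => h.pcm_mem π m hz

/-- the images are between the images of the end points -/
theorem Con.pcm_between (h : Con p q φ φ' C r K ε) (π : ℕ → E) (m : ℕ) {z : ℝ} (hz : z ∈ Set.Icc p q) :
    pcm φ π m z ∈ Set.uIcc (pcm φ π m p) (pcm φ π m q) := by
  have hpI : p ∈ Set.Icc p q := ⟨le_rfl, h.hpq.le⟩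
  have hqI : q ∈ Set.Icc p q := ⟨h.hpq.le, le_rfl⟩
  have hinj : Set.InjOn (pcm φ π m) (Set.Icc p q) := fun u hu v hv huv => by
    by_contra hne
    exact h.pcm_inj π m hu hv hne huv
  rcases (h.pcm_cont π m).strictMonoOn_of_injOn_Icc' h.hpq.le hinj with hm | hm
  · have h1 := hm.monotoneOn hpI hz hz.1
    have h2 := hm.monotoneOn hz hqI hz.2
    exact Set.mem_uIcc.2 (Or.inl ⟨h1, h2⟩)
  · have h1 := hm.antitoneOn hpI hz hz.1
    have h2 := hm.antitoneOn hz hqI hz.2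
    exact Set.mem_uIcc.2 (Or.inr ⟨h2, h1⟩)

theorem Con.pcm_close (h : Con p q φ φ' C r K ε) (π : ℕ → E) (m : ℕ) {u v : ℝ} (hu : u ∈ Set.Icc p q) (hv : v ∈ Set.Icc p q) :
    |pcm φ π m u - pcm φ π m v| ≤ |pcm φ π m q - pcm φ π m p| := by
  have h1 := Set.mem_uIcc.1 (h.pcm_between π m hu)
  have h2 := Set.mem_uIcc.1 (h.pcm_between π m hv)
  have h3 := le_abs_self (pcm φ π m q - pcm φ π m p)
  have h4 := neg_abs_le (pcm φ π m q - pcm φ π m p)
  rw [abs_le]
  rcases h1 with ⟨a1, a2⟩ | ⟨a1, a2⟩ <;> rcases h2 with ⟨b1, b2⟩ | ⟨b1, b2⟩ <;> constructor <;> linarith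

theorem Con.pcm_small (h : Con p q φ φ' C r K ε) (π : ℕ → E) (m : ℕ) {u v : ℝ} (hu : u ∈ Set.Icc p q) (hv : v ∈ Set.Icc p q) :
    |pcm φ π m u - pcm φ π m v| ≤ C * r ^ m := (h.pcm_close π m hu hv).trans (h.hcon π m)

theorem Con.hC (h : Con p q φ φ' C r K ε) (x : E) : 0 < C := by
  have h1 := h.hcon (fun _ => x) 0
  rw [pow_zero, mul_one] at h1
  have h2 : pcm φ (fun _ => x) 0 q - pcm φ (fun _ => x) 0 p = q - p := rfl
  rw [h2, abs_of_pos (sub_pos.2 h.hpq)] at h1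
  linarith [h.hpq]

/-- one more map does not change ratios of distances by much -/
theorem Con.step (h : Con p q φ φ' C r K ε) (π : ℕ → E) (m : ℕ) {u v u' v' : ℝ} (hu : u ∈ Set.Icc p q) (hv : v ∈ Set.Icc p q)
    (huv : u ≠ v) (hu' : u' ∈ Set.Icc p q) (hv' : v' ∈ Set.Icc p q) (huv' : u' ≠ v') :
    |((Real.log |pcm φ π (m + 1) u - pcm φ π (m + 1) v| - Real.log |pcm φ π m u - pcm φ π m v|) -
      (Real.log |pcm φ π (m + 1) u' - pcm φ π (m + 1) v'| - Real.log |pcm φ π m u' - pcm φ π m v'|))| ≤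
      K * (C * r ^ m) ^ ε := by
  have key : ∀ {u v : ℝ}, u ∈ Set.Icc p q → v ∈ Set.Icc p q → u ≠ v → ∃ c ∈ Set.uIcc (pcm φ π m u) (pcm φ π m v), c ∈ Set.Icc p q ∧
      Real.log |pcm φ π (m + 1) u - pcm φ π (m + 1) v| - Real.log |pcm φ π m u - pcm φ π m v| = Real.log |φ' (π m) c| := by
    intro u v hu hv huv
    have hne := h.pcm_inj π m hu hv huv
    obtain ⟨c, hc, hcI, heq⟩ := h.mvt (π m) (h.pcm_mem π m hu) (h.pcm_mem π m hv) hne
    refine ⟨c, hc, hcI, ?_⟩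
    have h1 : |pcm φ π (m + 1) u - pcm φ π (m + 1) v| = |φ' (π m) c| * |pcm φ π m u - pcm φ π m v| := heq
    rw [h1, Real.log_mul (abs_pos.2 (h.hne _ c hcI)).ne' (abs_pos.2 (sub_ne_zero.2 hne)).ne']
    ring
  obtain ⟨c, hc, hcI, hc1⟩ := key hu hv huv
  obtain ⟨c', hc', hcI', hc1'⟩ := key hu' hv' huv'
  rw [hc1, hc1']
  refine (h.hdist _ c hcI c' hcI').trans ?_
  apply mul_le_mul_of_nonneg_left _ h.hK
  apply Real.rpow_le_rpow (abs_nonneg _) _ h.hε.le
  -- both points are in the image of `[p, q]`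
  have hb : ∀ {u v c : ℝ}, u ∈ Set.Icc p q → v ∈ Set.Icc p q → c ∈ Set.uIcc (pcm φ π m u) (pcm φ π m v) →
      c ∈ Set.uIcc (pcm φ π m p) (pcm φ π m q) := fun hu hv hc =>
    Set.uIcc_subset_uIcc (h.pcm_between π m hu) (h.pcm_between π m hv) hc
  have h1 := Set.mem_uIcc.1 (hb hu hv hc)
  have h2 := Set.mem_uIcc.1 (hb hu' hv' hc')
  refine le_trans ?_ (h.hcon π m)
  have h3 := le_abs_self (pcm φ π m q - pcm φ π m p)
  have h4 := neg_abs_le (pcm φ π m q - pcm φ π m p)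
  rw [abs_le]
  rcases h1 with ⟨a1, a2⟩ | ⟨a1, a2⟩ <;> rcases h2 with ⟨b1, b2⟩ | ⟨b1, b2⟩ <;> constructor <;> linarith

/-- the distortion constant -/
noncomputable def dc (C r K ε : ℝ) : ℝ := K * C ^ ε / (1 - r ^ ε)

/-- many more maps do not change ratios of distances by much -/
theorem Con.many (h : Con p q φ φ' C r K ε) (π : ℕ → E) {m k : ℕ} (hmk : m ≤ k) {u v u' v' : ℝ} (hu : u ∈ Set.Icc p q)
    (hv : v ∈ Set.Icc p q) (huv : u ≠ v) (hu' : u' ∈ Set.Icc p q) (hv' : v' ∈ Set.Icc p q) (huv' : u' ≠ v') :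
    |((Real.log |pcm φ π k u - pcm φ π k v| - Real.log |pcm φ π m u - pcm φ π m v|) -
      (Real.log |pcm φ π k u' - pcm φ π k v'| - Real.log |pcm φ π m u' - pcm φ π m v'|))| ≤ dc C r K ε * (r ^ ε) ^ m := by
  have hC := h.hC (π 0)
  have hr := h.hr0
  have hrε0 : 0 < r ^ ε := Real.rpow_pos_of_pos hr ε
  have hrε1 : r ^ ε < 1 := Real.rpow_lt_one hr.le h.hr1 h.hε
  have hK := h.hK
  -- partial sums of the geometric series
  have h1 : |((Real.log |pcm φ π k u - pcm φ π k v| - Real.log |pcm φ π m u - pcm φ π m v|) -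
      (Real.log |pcm φ π k u' - pcm φ π k v'| - Real.log |pcm φ π m u' - pcm φ π m v'|))| ≤
      K * C ^ ε * (((r ^ ε) ^ m - (r ^ ε) ^ k) / (1 - r ^ ε)) := by
    induction k, hmk using Nat.le_induction with
    | base => simp
    | succ k hk ih =>
      have h2 := h.step π k hu hv huv hu' hv' huv'
      have h3 : (C * r ^ k) ^ ε = C ^ ε * (r ^ ε) ^ k := by
        have h7 : (r ^ k) ^ ε = (r ^ ε) ^ k := by
          rw [← Real.rpow_natCast r k, ← Real.rpow_natCast (r ^ ε) k, ← Real.rpow_mul hr.le, ← Real.rpow_mul hr.le, mul_comm]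
        rw [Real.mul_rpow hC.le (by positivity), h7]
      rw [h3] at h2
      have h4 : ((r ^ ε) ^ m - (r ^ ε) ^ (k + 1)) / (1 - r ^ ε) = ((r ^ ε) ^ m - (r ^ ε) ^ k) / (1 - r ^ ε) + (r ^ ε) ^ k := by
        have h6 : (1 : ℝ) - r ^ ε ≠ 0 := by linarith
        rw [eq_comm, div_add' _ _ _ h6, pow_succ]
        congr 1
        ring
      rw [h4, mul_add]
      have h5 := abs_add_le ((Real.log |pcm φ π k u - pcm φ π k v| - Real.log |pcm φ π m u - pcm φ π m v|) -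
        (Real.log |pcm φ π k u' - pcm φ π k v'| - Real.log |pcm φ π m u' - pcm φ π m v'|))
        ((Real.log |pcm φ π (k + 1) u - pcm φ π (k + 1) v| - Real.log |pcm φ π k u - pcm φ π k v|) -
        (Real.log |pcm φ π (k + 1) u' - pcm φ π (k + 1) v'| - Real.log |pcm φ π k u' - pcm φ π k v'|))
      refine le_trans (le_of_eq ?_) (h5.trans (add_le_add ih (h2.trans (le_of_eq (by ring)))))
      congr 1
      ring
  refine h1.trans ?_
  unfold dc
  have h2 : 0 ≤ (r ^ ε) ^ k := by positivity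
  have h3 : 0 < 1 - r ^ ε := by linarith
  rw [div_mul_eq_mul_div, mul_div_assoc]
  gcongr
  linarith

theorem dc_nonneg (h : Con p q φ φ' C r K ε) (x : E) : 0 ≤ dc C r K ε := by
  have hC := h.hC x
  have hrε1 : r ^ ε < 1 := Real.rpow_lt_one h.hr0.le h.hr1 h.hε
  have hK := h.hK
  unfold dc
  apply div_nonneg (by positivity) (by linarith)

theorem Con.len_pos (h : Con p q φ φ' C r K ε) (π : ℕ → E) (m : ℕ) : 0 < len p q φ π m := by
  unfold len
  exact abs_pos.2 (sub_ne_zero.2 (h.pcm_inj π m ⟨h.hpq.le, le_rfl⟩ ⟨le_rfl, h.hpq.le⟩ h.hpq.ne'))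

/-- relative distances -/
noncomputable def rd (p q : ℝ) (φ : E → ℝ → ℝ) (π : ℕ → E) (m : ℕ) (u v : ℝ) : ℝ :=
  |pcm φ π m u - pcm φ π m v| / len p q φ π m

theorem Con.rd_log (h : Con p q φ φ' C r K ε) (π : ℕ → E) {m k : ℕ} (hmk : m ≤ k) {u v : ℝ} (hu : u ∈ Set.Icc p q)
    (hv : v ∈ Set.Icc p q) (huv : u ≠ v) :
    |(Real.log (rd p q φ π k u v) - Real.log (rd p q φ π m u v))| ≤ dc C r K ε * (r ^ ε) ^ m := by
  have h1 := h.many π hmk hu hv huv (u' := q) (v' := p) ⟨h.hpq.le, le_rfl⟩ ⟨le_rfl, h.hpq.le⟩ h.hpq.ne'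
  have hn : ∀ j, |pcm φ π j u - pcm φ π j v| ≠ 0 := fun j => (abs_pos.2 (sub_ne_zero.2 (h.pcm_inj π j hu hv huv))).ne'
  unfold rd
  rw [Real.log_div (hn k) (h.len_pos π k).ne', Real.log_div (hn m) (h.len_pos π m).ne']
  unfold len
  refine le_trans (le_of_eq ?_) h1
  congr 1
  ring

theorem Con.rd_pos (h : Con p q φ φ' C r K ε) (π : ℕ → E) (m : ℕ) {u v : ℝ} (hu : u ∈ Set.Icc p q)
    (hv : v ∈ Set.Icc p q) (huv : u ≠ v) : 0 < rd p q φ π m u v :=
  div_pos (abs_pos.2 (sub_ne_zero.2 (h.pcm_inj π m hu hv huv))) (h.len_pos π m)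

theorem Con.rd_le_one (h : Con p q φ φ' C r K ε) (π : ℕ → E) (m : ℕ) {u v : ℝ} (hu : u ∈ Set.Icc p q)
    (hv : v ∈ Set.Icc p q) : rd p q φ π m u v ≤ 1 := by
  unfold rd
  rw [div_le_one (h.len_pos π m)]
  exact h.pcm_close π m hu hv

theorem rd_nonneg (p q : ℝ) (φ : E → ℝ → ℝ) (π : ℕ → E) (m : ℕ) (u v : ℝ) : 0 ≤ rd p q φ π m u v := by
  unfold rd len
  positivity

/-- relative distances at the times `m ≤ k` are close -/
theorem Con.rd_close (h : Con p q φ φ' C r K ε) (π : ℕ → E) {m k : ℕ} (hmk : m ≤ k) {u v : ℝ} (hu : u ∈ Set.Icc p q)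
    (hv : v ∈ Set.Icc p q) :
    |(rd p q φ π k u v - rd p q φ π m u v)| ≤ Real.exp (dc C r K ε) * (dc C r K ε * (r ^ ε) ^ m) := by
  have hD := dc_nonneg h (π 0)
  have hrε0 : 0 < r ^ ε := Real.rpow_pos_of_pos h.hr0 ε
  have hrε1 : r ^ ε < 1 := Real.rpow_lt_one h.hr0.le h.hr1 h.hε
  rcases eq_or_ne u v with rfl | huv
  · unfold rd
    rw [sub_self, abs_zero, zero_div, sub_self, abs_zero, zero_div, sub_self, abs_zero]
    positivity
  have h1 := h.rd_log π hmk hu hv huv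
  have hk := h.rd_pos π k hu hv huv
  have hm := h.rd_pos π m hu hv huv
  have hm1 := h.rd_le_one π m hu hv
  obtain ⟨t, ht⟩ : ∃ t, t = Real.log (rd p q φ π k u v) - Real.log (rd p q φ π m u v) := ⟨_, rfl⟩
  rw [← ht] at h1
  have h2 : rd p q φ π k u v = rd p q φ π m u v * Real.exp t := by
    rw [ht, Real.exp_sub, Real.exp_log hk, Real.exp_log hm]
    field_simp
  have hη1 : dc C r K ε * (r ^ ε) ^ m ≤ dc C r K ε := by
    have : (r ^ ε) ^ m ≤ 1 := pow_le_one₀ hrε0.le hrε1.le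
    calc dc C r K ε * (r ^ ε) ^ m ≤ dc C r K ε * 1 := by gcongr
      _ = _ := mul_one _
  have h3 : |(Real.exp t - 1)| ≤ Real.exp (dc C r K ε) * |t| := by
    rcases le_total 0 t with h0 | h0
    · rw [abs_of_nonneg (by linarith [Real.add_one_le_exp t]), abs_of_nonneg h0]
      have h4 : Real.exp t - 1 ≤ t * Real.exp t := by
        have h5 := Real.add_one_le_exp (-t)
        have h6 : Real.exp t * Real.exp (-t) = 1 := by rw [← Real.exp_add, add_neg_cancel, Real.exp_zero]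
        nlinarith [Real.exp_pos t]
      have h5 : Real.exp t ≤ Real.exp (dc C r K ε) := Real.exp_le_exp.2 ((le_abs_self t).trans (h1.trans hη1))
      nlinarith
    · have h4 : Real.exp t ≤ 1 := by
        rw [← Real.exp_zero]
        exact Real.exp_le_exp.2 h0
      rw [abs_of_nonpos (by linarith), abs_of_nonpos h0]
      have h5 := Real.add_one_le_exp t
      have h6 : 1 ≤ Real.exp (dc C r K ε) := Real.one_le_exp hD
      nlinarith
  rw [h2, ← mul_sub_one, abs_mul, abs_of_pos hm]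
  calc rd p q φ π m u v * |(Real.exp t - 1)| ≤ 1 * (Real.exp (dc C r K ε) * |t|) := by gcongr
    _ ≤ 1 * (Real.exp (dc C r K ε) * (dc C r K ε * (r ^ ε) ^ m)) := by gcongr
    _ = _ := one_mul _

/-- bounded distortion -/
theorem Con.rd_lower (h : Con p q φ φ' C r K ε) (π : ℕ → E) (m : ℕ) {u v : ℝ} (hu : u ∈ Set.Icc p q)
    (hv : v ∈ Set.Icc p q) : Real.exp (-dc C r K ε) * (|u - v| / (q - p)) ≤ rd p q φ π m u v := by
  rcases eq_or_ne u v with rfl | huv
  · rw [sub_self, abs_zero, zero_div, mul_zero]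
    exact rd_nonneg _ _ _ _ _ _ _
  have h1 := h.rd_log π (Nat.zero_le m) hu hv huv
  rw [pow_zero, mul_one] at h1
  have h0 : rd p q φ π 0 u v = |u - v| / (q - p) := by
    unfold rd len
    show |u - v| / |q - p| = _
    rw [abs_of_pos (sub_pos.2 h.hpq)]
  have hm := h.rd_pos π m hu hv huv
  have h00 := h.rd_pos π 0 hu hv huv
  rw [← h0]
  have h2 := (abs_le.1 h1).1
  rw [← Real.exp_log hm, ← Real.exp_log h00, ← Real.exp_add]
  apply Real.exp_le_exp.2
  linarith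

end Pool.Agent.Helper46.HS
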