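import Pool.Agent.Helper46.HS.Base

/-!
# HS block D: the roof function
-/

set_option autoImplicit false

namespace Pool.Agent.Helper46.HS

open Finset MeasureTheory ProbabilityTheory Filter Topology
open Pool.Agent.Helper46.HR

variable {Ω : Type*} [MeasurableSpace Ω] {E : Type*} [MeasurableSpace E] {μ : Measure Ω} {p q : ℝ} {T : Ω ≃ᵐ Ω} {ξ : Ω → E}
    {φ φ' : E → ℝ → ℝ} {X : Ω → ℝ} {C r K ε : ℝ}

/-- the logarithmic contraction of the next map, in the chart given by the last `m` maps -/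
noncomputable def tt (p q : ℝ) (T : Ω ≃ᵐ Ω) (ξ : Ω → E) (φ : E → ℝ → ℝ) (m : ℕ) (ω : Ω) : ℝ :=
  -Real.log (rd p q φ (pst T ξ ω) m (φ (ξ ω) q) (φ (ξ ω) p))

/-- the roof function -/
noncomputable def tau (p q : ℝ) (T : Ω ≃ᵐ Ω) (ξ : Ω → E) (φ : E → ℝ → ℝ) (ω : Ω) : ℝ :=
  limUnder atTop fun m => tt p q T ξ φ m ω

theorem Con.hφq (h : Con p q φ φ' C r K ε) (x : E) : φ x q ∈ Set.Icc p q := h.hmaps x q ⟨h.hpq.le, le_rfl⟩

theorem Con.hφp (h : Con p q φ φ' C r K ε) (x : E) : φ x p ∈ Set.Icc p q := h.hmaps x p ⟨le_rfl, h.hpq.le⟩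

theorem Con.hφne (h : Con p q φ φ' C r K ε) (x : E) : φ x q ≠ φ x p :=
  h.inj x ⟨h.hpq.le, le_rfl⟩ ⟨le_rfl, h.hpq.le⟩ h.hpq.ne'

theorem tt_close (h : Con p q φ φ' C r K ε) {m k : ℕ} (hmk : m ≤ k) (ω : Ω) :
    |tt p q T ξ φ k ω - tt p q T ξ φ m ω| ≤ dc C r K ε * (r ^ ε) ^ m := by
  unfold tt
  have h1 := h.rd_log (pst T ξ ω) hmk (h.hφq (ξ ω)) (h.hφp (ξ ω)) (h.hφne (ξ ω))
  rw [← abs_neg]
  refine le_trans (le_of_eq ?_) h1
  congr 1
  ring

theorem rε (h : Con p q φ φ' C r K ε) : 0 < r ^ ε ∧ r ^ ε < 1 :=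
  ⟨Real.rpow_pos_of_pos h.hr0 ε, Real.rpow_lt_one h.hr0.le h.hr1 h.hε⟩

theorem tau_tendsto (h : Con p q φ φ' C r K ε) (ω : Ω) :
    Tendsto (fun m => tt p q T ξ φ m ω) atTop (𝓝 (tau p q T ξ φ ω)) := by
  apply tendsto_nhds_limUnder
  apply cauchySeq_tendsto_of_complete
  obtain ⟨h1, h2⟩ := rε h
  rw [Metric.cauchySeq_iff']
  intro η hη
  have h3 : Tendsto (fun m : ℕ => dc C r K ε * (r ^ ε) ^ m) atTop (𝓝 0) := by
    have := (tendsto_pow_atTop_nhds_zero_of_lt_one h1.le h2).const_mul (dc C r K ε)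
    rwa [mul_zero] at this
  obtain ⟨N, hN⟩ := (h3.eventually (gt_mem_nhds hη)).exists
  refine ⟨N, fun n hn => ?_⟩
  rw [Real.dist_eq]
  exact (tt_close h hn ω).trans_lt hN

theorem tau_close (h : Con p q φ φ' C r K ε) (m : ℕ) (ω : Ω) :
    |tt p q T ξ φ m ω - tau p q T ξ φ ω| ≤ dc C r K ε * (r ^ ε) ^ m := by
  have h1 : Tendsto (fun k => |tt p q T ξ φ m ω - tt p q T ξ φ k ω|) atTop (𝓝 |tt p q T ξ φ m ω - tau p q T ξ φ ω|) :=
    (tendsto_const_nhds.sub (tau_tendsto h ω)).abs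
  refine le_of_tendsto h1 ?_
  filter_upwards [eventually_ge_atTop m] with k hk
  rw [abs_sub_comm]
  exact tt_close h hk ω

theorem tt_nonneg (h : Con p q φ φ' C r K ε) (m : ℕ) (ω : Ω) : 0 ≤ tt p q T ξ φ m ω := by
  unfold tt
  have h1 := h.rd_le_one (pst T ξ ω) m (h.hφq (ξ ω)) (h.hφp (ξ ω))
  have h2 := Real.log_nonpos (rd_nonneg p q φ (pst T ξ ω) m _ _) h1
  linarith

theorem tau_nonneg (h : Con p q φ φ' C r K ε) (ω : Ω) : 0 ≤ tau p q T ξ φ ω :=
  ge_of_tendsto' (tau_tendsto h ω) fun m => tt_nonneg h m ω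

theorem tt_measurable (hS : Prc μ p q T ξ φ X) (m : ℕ) : Measurable (tt p q T ξ φ m) := by
  unfold tt rd
  have h1 : ∀ z, Measurable fun ω => pcm φ (pst T ξ ω) m (φ (ξ ω) z) := fun z =>
    (pcm_measurable hS.hφ m).comp (hS.mpst.prodMk (hS.hφ.comp (hS.hξ.prodMk measurable_const)))
  exact (Real.measurable_log.comp (((h1 q).sub (h1 p)).abs.div ((len_measurable hS.hφ p q m).comp hS.mpst))).neg

theorem tau_measurable (h : Con p q φ φ' C r K ε) (hS : Prc μ p q T ξ φ X) : Measurable (tau p q T ξ φ) := by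
  refine measurable_of_tendsto_metrizable (f := fun m => tt p q T ξ φ m) (fun m => tt_measurable hS m) ?_
  rw [tendsto_pi_nhds]
  exact fun ω => tau_tendsto h ω

theorem iter_comm (T : Ω ≃ᵐ Ω) (j k : ℕ) (ω : Ω) : T^[j] (T^[k] ω) = T^[j + k] ω := (Function.iterate_add_apply T j k ω).symm

/-- the increments of the logarithmic scales -/
theorem sc_succ (h : Con p q φ φ' C r K ε) (k : ℕ) (ω : Ω) :
    sc (rho p q T ξ φ) (k + 1) ω - sc (rho p q T ξ φ) k ω = tt p q T ξ φ k (T^[k] ω) := by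
  unfold sc rho tt rd
  have h1 : len p q φ (pst T ξ (T^[k + 1] ω)) (k + 1) = |pcm φ (pst T ξ (T^[k] ω)) k (φ (ξ (T^[k] ω)) q) -
      pcm φ (pst T ξ (T^[k] ω)) k (φ (ξ (T^[k] ω)) p)| := by
    unfold len
    rw [Function.iterate_succ_apply', pcm_T, pcm_T]
  have h2 := h.len_pos (pst T ξ (T^[k + 1] ω)) (k + 1)
  rw [← h1, Real.log_div h2.ne' (h.len_pos (pst T ξ (T^[k] ω)) k).ne']
  ring

/-- the scales are close to the sums of the roof function -/
theorem sc_close (h : Con p q φ φ' C r K ε) (k : ℕ) (ω : Ω) :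
    |(sc (rho p q T ξ φ) (k + 1) ω - sc (rho p q T ξ φ) k ω) - tau p q T ξ φ (T^[k] ω)| ≤ dc C r K ε * (r ^ ε) ^ k := by
  rw [sc_succ h]
  exact tau_close h k _

/-- the sums of the roof function -/
noncomputable def Ssum (τ : Ω → ℝ) (T : Ω → Ω) (k : ℕ) (ω : Ω) : ℝ := ∑ j ∈ range k, τ (T^[j] ω)

/-- the difference converges -/
theorem sigma_exists (h : Con p q φ φ' C r K ε) (ω : Ω) :
    ∃ σ : ℝ, Tendsto (fun k => sc (rho p q T ξ φ) k ω - Ssum (tau p q T ξ φ) T k ω) atTop (𝓝 σ) := by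
  obtain ⟨h1, h2⟩ := rε h
  obtain ⟨f, hf⟩ : ∃ f : ℕ → ℝ, f = fun k => sc (rho p q T ξ φ) k ω - Ssum (tau p q T ξ φ) T k ω := ⟨_, rfl⟩
  have h3 : ∀ k, f (k + 1) - f k = (sc (rho p q T ξ φ) (k + 1) ω - sc (rho p q T ξ φ) k ω) - tau p q T ξ φ (T^[k] ω) := by
    intro k
    rw [hf]
    unfold Ssum
    simp only
    rw [sum_range_succ]
    ring
  have h4 : Summable fun k => f (k + 1) - f k := by
    refine Summable.of_norm_bounded (g := fun k => dc C r K ε * (r ^ ε) ^ k) ((summable_geometric_of_lt_one h1.le h2).mul_left _)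
      fun k => ?_
    rw [h3, Real.norm_eq_abs]
    exact sc_close h k ω
  have h5 : ∀ n, ∑ k ∈ range n, (f (k + 1) - f k) = f n - f 0 := fun n => Finset.sum_range_sub f n
  refine ⟨∑' k, (f (k + 1) - f k) + f 0, ?_⟩
  have h6 := h4.hasSum.tendsto_sum_nat
  have h7 : Tendsto (fun n => ∑ k ∈ range n, (f (k + 1) - f k) + f 0) atTop (𝓝 (∑' k, (f (k + 1) - f k) + f 0)) :=
    h6.add tendsto_const_nhds
  rw [← hf]
  refine h7.congr fun n => ?_
  rw [h5]
  ring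

/-- splitting a composition -/
theorem pcm_add (φ : E → ℝ → ℝ) (π : ℕ → E) (l k : ℕ) (z : ℝ) :
    pcm φ π (l + k) z = pcm φ (fun j => π (j + l)) k (pcm φ π l z) := by
  induction k with
  | zero => rfl
  | succ k ih =>
    have h1 : pcm φ π (l + (k + 1)) z = φ (π (l + k)) (pcm φ π (l + k) z) := rfl
    rw [h1, ih, add_comm l k]
    rfl

/-- linear growth of the logarithmic scales -/
theorem sc_growth (h : Con p q φ φ' C r K ε) (k l : ℕ) (ω : Ω) :
    l * Real.log (1 / r) - (dc C r K ε + Real.log (C / (q - p))) ≤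
      sc (rho p q T ξ φ) (k + l) ω - sc (rho p q T ξ φ) k ω := by
  have hpq := h.hpq
  have hC := h.hC (ξ ω)
  have hr := h.hr0
  obtain ⟨π, hπ⟩ : ∃ π, π = pst T ξ (T^[k + l] ω) := ⟨_, rfl⟩
  have hπ' : pst T ξ (T^[k] ω) = fun j => π (j + l) := by
    funext j
    have := pst_shift T ξ (Nat.le_add_right k l) ω j
    rw [this, hπ]
    congr 1
    omega
  obtain ⟨u, hu⟩ : ∃ u, u = pcm φ π l q := ⟨_, rfl⟩
  obtain ⟨v, hv⟩ : ∃ v, v = pcm φ π l p := ⟨_, rfl⟩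
  have huI : u ∈ Set.Icc p q := by rw [hu]; exact h.pcm_mem π l ⟨hpq.le, le_rfl⟩
  have hvI : v ∈ Set.Icc p q := by rw [hv]; exact h.pcm_mem π l ⟨le_rfl, hpq.le⟩
  have huv : u ≠ v := by rw [hu, hv]; exact h.pcm_inj π l ⟨hpq.le, le_rfl⟩ ⟨le_rfl, hpq.le⟩ hpq.ne'
  have h1 : len p q φ π (k + l) = |pcm φ (pst T ξ (T^[k] ω)) k u - pcm φ (pst T ξ (T^[k] ω)) k v| := by
    unfold len
    rw [add_comm k l, pcm_add, pcm_add, hπ', hu, hv]
  have h2 : rd p q φ (pst T ξ (T^[k] ω)) k u v = len p q φ π (k + l) / len p q φ (pst T ξ (T^[k] ω)) k := by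
    unfold rd
    rw [h1]
  have h3 := h.rd_log (pst T ξ (T^[k] ω)) (Nat.zero_le k) huI hvI huv
  rw [pow_zero, mul_one] at h3
  have h4 : rd p q φ (pst T ξ (T^[k] ω)) 0 u v = |u - v| / (q - p) := by
    unfold rd len
    show |u - v| / |q - p| = _
    rw [abs_of_pos (sub_pos.2 hpq)]
  have h5 : |u - v| ≤ C * r ^ l := by rw [hu, hv]; exact h.hcon π l
  have huv0 : 0 < |u - v| := abs_pos.2 (sub_ne_zero.2 huv)
  have h6 : Real.log (rd p q φ (pst T ξ (T^[k] ω)) 0 u v) ≤ Real.log (C / (q - p)) + l * Real.log r := by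
    rw [h4, ← Real.log_pow, ← Real.log_mul (by positivity) (by positivity)]
    apply Real.log_le_log (by positivity)
    rw [div_mul_eq_mul_div]
    exact div_le_div_of_nonneg_right h5 (by linarith)
  have h7 : sc (rho p q T ξ φ) (k + l) ω - sc (rho p q T ξ φ) k ω = -Real.log (rd p q φ (pst T ξ (T^[k] ω)) k u v) := by
    rw [h2]
    unfold sc rho
    rw [← hπ, Real.log_div (h.len_pos π (k + l)).ne' (h.len_pos _ k).ne']
    ring
  rw [h7, one_div, Real.log_inv]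
  linarith [(abs_le.1 h3).2]

/-- linear growth of the sums of the roof function -/
theorem S_growth (h : Con p q φ φ' C r K ε) (k l : ℕ) (ω : Ω) :
    l * Real.log (1 / r) - (dc C r K ε + Real.log (C / (q - p)) + dc C r K ε / (1 - r ^ ε)) ≤
      Ssum (tau p q T ξ φ) T (k + l) ω - Ssum (tau p q T ξ φ) T k ω := by
  obtain ⟨h1, h2⟩ := rε h
  have hD := dc_nonneg h (ξ ω)
  have h3 := sc_growth (T := T) (ξ := ξ) h k l ω
  have h4 : ∀ n : ℕ, |(sc (rho p q T ξ φ) (k + n) ω - sc (rho p q T ξ φ) k ω) - (Ssum (tau p q T ξ φ) T (k + n) ω - Ssum (tau p q T ξ φ) T k ω)| ≤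
      ∑ j ∈ range n, dc C r K ε * (r ^ ε) ^ (k + j) := by
    intro n
    induction n with
    | zero => simp
    | succ n ih =>
      rw [sum_range_succ]
      have h5 := sc_close (T := T) (ξ := ξ) h (k + n) ω
      have h6 : Ssum (tau p q T ξ φ) T (k + (n + 1)) ω = Ssum (tau p q T ξ φ) T (k + n) ω + tau p q T ξ φ (T^[k + n] ω) := by
        unfold Ssum
        rw [← add_assoc, sum_range_succ]
      rw [h6]
      have h7 := abs_add_le ((sc (rho p q T ξ φ) (k + n) ω - sc (rho p q T ξ φ) k ω) - (Ssum (tau p q T ξ φ) T (k + n) ω - Ssum (tau p q T ξ φ) T k ω))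
        ((sc (rho p q T ξ φ) (k + n + 1) ω - sc (rho p q T ξ φ) (k + n) ω) - tau p q T ξ φ (T^[k + n] ω))
      refine le_trans (le_of_eq ?_) (h7.trans (add_le_add ih h5))
      congr 1
      rw [← add_assoc]
      ring
  have h5 : ∑ j ∈ range l, dc C r K ε * (r ^ ε) ^ (k + j) ≤ dc C r K ε / (1 - r ^ ε) := by
    rw [← mul_sum, div_eq_mul_inv]
    apply mul_le_mul_of_nonneg_left _ hD
    have h6 : ∑ j ∈ range l, (r ^ ε) ^ (k + j) ≤ ∑ j ∈ range l, (r ^ ε) ^ j := sum_le_sum fun j _ =>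
      pow_le_pow_of_le_one h1.le h2.le (by omega)
    refine h6.trans ?_
    rw [← tsum_geometric_of_lt_one h1.le h2]
    exact (summable_geometric_of_lt_one h1.le h2).sum_le_tsum _ fun j _ => pow_nonneg h1.le _
  have h6 := (abs_le.1 ((h4 l).trans h5)).2
  linarith

/-- the roof function is at most the logarithmic contraction of the interval, up to a constant -/
theorem tau_le (h : Con p q φ φ' C r K ε) (ω : Ω) : tau p q T ξ φ ω ≤ tt p q T ξ φ 0 ω + dc C r K ε := by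
  have := (abs_le.1 (tau_close (T := T) (ξ := ξ) h 0 ω)).1
  rw [pow_zero, mul_one] at this
  linarith

/-- the logarithmic contraction and the derivative -/
theorem tt_zero_le (h : Con p q φ φ' C r K ε) (ω : Ω) {z : ℝ} (hz : z ∈ Set.Icc p q) :
    tt p q T ξ φ 0 ω ≤ -Real.log |φ' (ξ ω) z| + K * (q - p) ^ ε := by
  have hpq := h.hpq
  have hqI : q ∈ Set.Icc p q := ⟨hpq.le, le_rfl⟩
  have hpI : p ∈ Set.Icc p q := ⟨le_rfl, hpq.le⟩
  obtain ⟨c, hc, hcI, heq⟩ := h.mvt (ξ ω) hqI hpI hpq.ne'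
  have h1 : tt p q T ξ φ 0 ω = -Real.log |φ' (ξ ω) c| := by
    unfold tt rd len
    show -Real.log (|φ (ξ ω) q - φ (ξ ω) p| / |q - p|) = _
    rw [heq, mul_div_assoc, div_self (abs_pos.2 (sub_ne_zero.2 hpq.ne')).ne', mul_one]
  have h2 := (abs_le.1 (h.hdist (ξ ω) z hz c hcI)).2
  have h3 : |z - c| ^ ε ≤ (q - p) ^ ε := by
    apply Real.rpow_le_rpow (abs_nonneg _) _ h.hε.le
    rw [abs_le]
    constructor <;> linarith [hz.1, hz.2, hcI.1, hcI.2]
  have h4 : K * |z - c| ^ ε ≤ K * (q - p) ^ ε := mul_le_mul_of_nonneg_left h3 h.hK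
  rw [h1]
  linarith

theorem tau_integrable (h : Con p q φ φ' C r K ε) (hS : Prc μ p q T ξ φ X) [IsProbabilityMeasure μ]
    (hi : Integrable (fun ω => Real.log |φ' (ξ ω) (X (T ω))|) μ) : Integrable (tau p q T ξ φ) μ := by
  have h1 : Integrable (fun ω => -Real.log |φ' (ξ ω) (X (T ω))| + (K * (q - p) ^ ε + dc C r K ε)) μ :=
    hi.neg.add (integrable_const _)
  refine h1.mono' (tau_measurable h hS).aestronglyMeasurable (Eventually.of_forall fun ω => ?_)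
  rw [Real.norm_eq_abs, abs_of_nonneg (tau_nonneg h ω)]
  have h2 := tau_le (T := T) (ξ := ξ) h ω
  have h3 := tt_zero_le (T := T) (ξ := ξ) h ω (hS.hXI (T ω))
  linarith

end Pool.Agent.Helper46.HS
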